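import Pool.Agent.Lib.MP_417c68_gt_P.D.Lr

/-!
# MP_417c68_gt, project P, module D/Fam: connected families of centreless subtriples

PROOF (text, section 3, COR).  `O = {k P₀ k⁻¹ : k ∈ Inn}` for the projection `P₀` onto `N k`:
compact.  `Q = {P : IsPr P, trace P = d, P ∉ O}` is compact: bounded, and closed by `lr` (a limit
  `P₀'`
in `O` of elements of `Q` contradicts `lr` at `P₀'`, whose range is centreless (`range_conj`,
`im_cen`)).  `A = {k' ∈ C : ∃ P ∈ O, ∀ x, P x ∈ N k'}`, `B = {k' ∈ C : ∃ P ∈ Q, ∀ x, P x ∈ N k'}`: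
  both are
images of compact sets (closed subsets of `C × O`, `C × Q`; closedness from `hcl`) under the
projection to `X`, so they are closed.  By dimensions `∀ x, P x ∈ N k'` means `range P = N k'`, so
  `P` is
determined by `k'` (`IsPr.ext`) and `A`, `B` are disjoint, `A ∪ B = C` (`exists_isPr`), `k ∈ A`;
  `C` is
preconnected, so `B = ∅`.
-/

noncomputable section

namespace Pool.Agent.MP417P

open Module

namespace LTS

variable {E : Type} [NormedAddCommGroup E] [NormedSpace ℝ E] [FiniteDimensional ℝ E] {S : LTS E}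

/-- the conjugate of `P` by `u` -/
private def cj (P : E →L[ℝ] E) (u : GLE E) : E →L[ℝ] E := u.1 * P * (u⁻¹).1

omit [FiniteDimensional ℝ E] in
private theorem continuous_cj (P : E →L[ℝ] E) : Continuous (cj P) := by
  unfold cj
  exact (Units.continuous_val.mul continuous_const).mul
    (Units.continuous_val.comp continuous_inv)

omit [FiniteDimensional ℝ E] in
private theorem cj_one (P : E →L[ℝ] E) : cj P 1 = P := by
  unfold cj
  rw [inv_one, Units.val_one, one_mul, mul_one]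

omit [FiniteDimensional ℝ E] in
private theorem cj_cj (P : E →L[ℝ] E) (u v : GLE E) : cj (cj P u) v = cj P (v * u) := by
  unfold cj
  rw [mul_inv_rev, Units.val_mul, Units.val_mul]
  simp only [mul_assoc]

private theorem cj_isPr {P : E →L[ℝ] E} (h : S.IsPr P) {u : GLE E} (hu : u ∈ S.Inn) :
    S.IsPr (cj P u) :=
  h.conj (S.inn_aut u hu)

private theorem trace_closed (d : ℕ) :
    IsClosed {P : E →L[ℝ] E | LinearMap.trace ℝ E (P : E →ₗ[ℝ] E) = (d : ℝ)} := by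
  have hcont : Continuous fun P : E →L[ℝ] E => LinearMap.trace ℝ E (P : E →ₗ[ℝ] E) := by
    have h := LinearMap.continuous_of_finiteDimensional
      ((LinearMap.trace ℝ E).comp (ContinuousLinearMap.coeLM ℝ : (E →L[ℝ] E) →ₗ[ℝ] E →ₗ[ℝ] E))
    exact h
  exact isClosed_eq hcont continuous_const

omit [FiniteDimensional ℝ E] in
private theorem closed_graph {X : Type} [TopologicalSpace X] {C : Set X} {N : X → Submodule ℝ E}
    (hcl : IsClosed {p : X × E | p.1 ∈ C ∧ p.2 ∈ N p.1}) :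
    IsClosed {p : X × (E →L[ℝ] E) | p.1 ∈ C ∧ ∀ x, p.2 x ∈ N p.1} := by
  have h : {p : X × (E →L[ℝ] E) | p.1 ∈ C ∧ ∀ x, p.2 x ∈ N p.1} =
      ⋂ x : E, {p : X × (E →L[ℝ] E) | (p.1, p.2 x) ∈ {q : X × E | q.1 ∈ C ∧ q.2 ∈ N q.1}} := by
    ext p
    simp only [Set.mem_ofPred_eq, Set.mem_iInter]
    constructor
    · rintro ⟨h1, h2⟩ x
      exact ⟨h1, h2 x⟩
    · intro h
      exact ⟨(h 0).1, fun x => (h x).2⟩
  rw [h]
  refine isClosed_iInter fun x => hcl.preimage ?_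
  exact continuous_fst.prodMk
    ((ContinuousLinearMap.apply ℝ E x).continuous.comp continuous_snd)

omit [FiniteDimensional ℝ E] in
private theorem closed_proj {X : Type} [TopologicalSpace X] [T2Space X] {C : Set X}
    (hC : IsCompact C) {N : X → Submodule ℝ E}
    (hcl : IsClosed {p : X × E | p.1 ∈ C ∧ p.2 ∈ N p.1}) {O : Set (E →L[ℝ] E)}
    (hO : IsCompact O) : IsClosed {k | k ∈ C ∧ ∃ P ∈ O, ∀ x, P x ∈ N k} := by
  have h1 : IsCompact ((C ×ˢ O) ∩ {p : X × (E →L[ℝ] E) | p.1 ∈ C ∧ ∀ x, p.2 x ∈ N p.1}) :=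
    (hC.prod hO).inter_right (closed_graph hcl)
  have h2 := h1.image continuous_fst
  have h3 : {k | k ∈ C ∧ ∃ P ∈ O, ∀ x, P x ∈ N k} = Prod.fst ''
      ((C ×ˢ O) ∩ {p : X × (E →L[ℝ] E) | p.1 ∈ C ∧ ∀ x, p.2 x ∈ N p.1}) := by
    ext k
    constructor
    · rintro ⟨hk, P, hP, hx⟩
      exact ⟨(k, P), ⟨⟨hk, hP⟩, hk, hx⟩, rfl⟩
    · rintro ⟨⟨k', P⟩, ⟨⟨hk, hP⟩, _, hx⟩, rfl⟩
      exact ⟨hk, P, hP, hx⟩
  rw [h3]
  exact h2.isClosed

theorem conj_family {X : Type} [TopologicalSpace X] [T2Space X] {C : Set X} (hC : IsCompact C)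
    (hc : IsPreconnected C) {N : X → Submodule ℝ E} {d : ℕ} (hs : ∀ k ∈ C, S.Sub (N k))
    (hd : ∀ k ∈ C, finrank ℝ (N k) = d) (hz : ∀ k ∈ C, S.cen (N k) = ⊥)
    (hcl : IsClosed {p : X × E | p.1 ∈ C ∧ p.2 ∈ N p.1}) {k k' : X} (hk : k ∈ C) (hk' : k' ∈ C) :
    ∃ u ∈ S.Inn, N k' = im u (N k) := by
  obtain ⟨P₀, h0, hr0⟩ := exists_isPr (hs k hk)
  have hOc : IsCompact (cj P₀ '' (S.Inn : Set (GLE E))) :=
    S.inn_compact.image (continuous_cj P₀)
  -- ranges of elements of the orbit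
  have hrange : ∀ u, LinearMap.range ((cj P₀ u : E →L[ℝ] E) : E →ₗ[ℝ] E) = im u (N k) := by
    intro u
    have h := range_conj P₀ u
    rw [hr0] at h
    exact h
  have hcl' : IsClosed {P : E →L[ℝ] E | S.IsPr P ∧
      LinearMap.trace ℝ E (P : E →ₗ[ℝ] E) = (d : ℝ) ∧ P ∉ cj P₀ '' (S.Inn : Set (GLE E))} := by
    rw [← isSeqClosed_iff_isClosed]
    intro P P' hP hl
    refine ⟨?_, ?_, ?_⟩
    · exact S.isClosed_isPr.mem_of_tendsto hl (Filter.Eventually.of_forall fun n => (hP n).1)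
    · exact (trace_closed d).mem_of_tendsto hl (Filter.Eventually.of_forall fun n => (hP n).2.1)
    · rintro ⟨u, hu, rfl⟩
      have hcen : S.cen (LinearMap.range ((cj P₀ u : E →L[ℝ] E) : E →ₗ[ℝ] E)) = ⊥ := by
        rw [hrange u, S.im_cen (S.inn_aut u hu), hz k hk]
        exact Submodule.map_bot _
      obtain ⟨n, v, hv, hn⟩ := lr (cj_isPr h0 hu) hcen (fun n => (hP n).1) hl
      refine (hP n).2.2 ⟨v * u, S.Inn.mul_mem hv hu, ?_⟩
      rw [← cj_cj]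
      exact hn.symm
  have hQc : IsCompact {P : E →L[ℝ] E | S.IsPr P ∧
      LinearMap.trace ℝ E (P : E →ₗ[ℝ] E) = (d : ℝ) ∧ P ∉ cj P₀ '' (S.Inn : Set (GLE E))} :=
    S.isCompact_isPr.of_isClosed_subset hcl' fun P hP => hP.1
  have hA := closed_proj hC hcl hOc
  have hB := closed_proj hC hcl hQc
  -- elements of `A`
  have hAr : ∀ k'' ∈ C, ∀ u ∈ S.Inn, (∀ x, cj P₀ u x ∈ N k'') →
      im u (N k) = N k'' := by
    intro k'' hk'' u _ hx
    refine Submodule.eq_of_le_of_finrank_eq ?_ ?_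
    · rw [← hrange u]
      rintro y ⟨x, rfl⟩
      exact hx x
    · rw [finrank_im, hd k hk, hd k'' hk'']
  by_cases hkA : k' ∈ {k'' | k'' ∈ C ∧ ∃ P ∈ cj P₀ '' (S.Inn : Set (GLE E)), ∀ x, P x ∈ N k''}
  · obtain ⟨_, P, ⟨u, hu, rfl⟩, hx⟩ := hkA
    exact ⟨u, hu, (hAr k' hk' u hu hx).symm⟩
  · exfalso
    have hcov : C ⊆ {k'' | k'' ∈ C ∧ ∃ P ∈ cj P₀ '' (S.Inn : Set (GLE E)), ∀ x, P x ∈ N k''} ∪
        {k'' | k'' ∈ C ∧ ∃ P ∈ {P : E →L[ℝ] E | S.IsPr P ∧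
          LinearMap.trace ℝ E (P : E →ₗ[ℝ] E) = (d : ℝ) ∧
          P ∉ cj P₀ '' (S.Inn : Set (GLE E))}, ∀ x, P x ∈ N k''} := by
      intro k'' hk''
      obtain ⟨P, hP, hPr⟩ := exists_isPr (hs k'' hk'')
      have hmem : ∀ x, P x ∈ N k'' := by
        intro x
        rw [← hPr]
        exact ⟨x, rfl⟩
      by_cases hPO : P ∈ cj P₀ '' (S.Inn : Set (GLE E))
      · exact Or.inl ⟨hk'', P, hPO, hmem⟩
      · refine Or.inr ⟨hk'', P, ⟨hP, ?_, hPO⟩, hmem⟩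
        rw [← hP.rank, hPr, hd k'' hk'']
    have hne1 : (C ∩ {k'' | k'' ∈ C ∧ ∃ P ∈ cj P₀ '' (S.Inn : Set (GLE E)),
        ∀ x, P x ∈ N k''}).Nonempty := by
      refine ⟨k, hk, hk, P₀, ⟨1, S.Inn.one_mem, cj_one P₀⟩, fun x => ?_⟩
      rw [← hr0]
      exact ⟨x, rfl⟩
    have hne2 : (C ∩ {k'' | k'' ∈ C ∧ ∃ P ∈ {P : E →L[ℝ] E | S.IsPr P ∧
          LinearMap.trace ℝ E (P : E →ₗ[ℝ] E) = (d : ℝ) ∧
          P ∉ cj P₀ '' (S.Inn : Set (GLE E))}, ∀ x, P x ∈ N k''}).Nonempty := by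
      refine ⟨k', hk', ?_⟩
      rcases hcov hk' with h | h
      · exact absurd h hkA
      · exact h
    obtain ⟨k'', hk'', ⟨_, P, ⟨u, hu, rfl⟩, hx⟩, ⟨_, P', ⟨hP'1, hP'2, hP'3⟩, hx'⟩⟩ :=
      isPreconnected_closed_iff.1 hc _ _ hA hB hcov hne1 hne2
    have e1 : LinearMap.range ((cj P₀ u : E →L[ℝ] E) : E →ₗ[ℝ] E) = N k'' := by
      rw [hrange u]
      exact hAr k'' hk'' u hu hx
    have e2 : LinearMap.range (P' : E →ₗ[ℝ] E) = N k'' := by
      refine Submodule.eq_of_le_of_finrank_eq ?_ ?_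
      · rintro y ⟨x, rfl⟩
        exact hx' x
      · have h := hP'1.rank
        rw [hP'2] at h
        rw [hd k'' hk'']
        exact_mod_cast h
    have e3 : cj P₀ u = P' := (cj_isPr h0 hu).ext hP'1 (e1.trans e2.symm)
    exact hP'3 ⟨u, hu, e3⟩

end LTS

end Pool.Agent.MP417P
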