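import Pool.Agent.Lib.MP_417c68_gt_P.D.Pr

/-!
# MP_417c68_gt, project P, module D/Lr: local rigidity of centreless subtriples

PROOF of `lr` (text, section 3).  Suppose no `P n` is conjugate to `P₀`.  Take `k_n` and
`P'_n = k_n P_n k_n⁻¹` from `minimal`; `P'_n ≠ P₀`; `hs (P'_n - P₀) (P'_n - P₀) → 0`, so `P'_n →
  P₀`.
`D_n = P'_n - P₀ ≠ 0`, `δ_n = D_n / ‖D_n‖` has a subsequence which converges to some `δ` with `‖δ‖
  = 1`
(finite dimension).  `limit_dfm`: the limit satisfies (divide the identities by `‖D_n‖`):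
* `P₀ δ + δ P₀ = δ` (from `(P₀ + D_n) (P₀ + D_n) = P₀ + D_n`), `δ` is symmetric;
* for `x y z`: `δ (T (P₀ x) (P₀ y) (P₀ z)) + P₀ (T (δ x) (P₀ y) (P₀ z) + T (P₀ x) (δ y) (P₀ z) +
  T (P₀ x) (P₀ y) (δ z)) = T (δ x) (P₀ y) (P₀ z) + T (P₀ x) (δ y) (P₀ z) + T (P₀ x) (P₀ y) (δ z)`
  (from `IsPr.trip` for `P₀ + D_n`, first order terms);
* `hs (T u w δ - δ T u w) P₀ = 0`.
So `psi = δ` is a `Dfm` for `V = range P₀`: `perp`: `P₀ δ x = 0` for `x ∈ V`; `h1`: for `x y z ∈ V`,
`w ⊥ V`; `h2`: `hs (T u w δ - δ T u w) P₀ = 2 ∑ ip (T u w (δ f_j)) f_j` for an orthonormal basis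
  `f` of
`V` (`P₀` is the projection onto `V`; `T u w` skew, `δ` symmetric).  By `Dfm.zero` `δ = 0` on `V`;
  for
`x ⊥ V` `δ x = P₀ δ x ∈ V` and `ip (δ x) y = ip x (δ y) = 0` for `y ∈ V`, so `δ = 0`, contradiction.
-/

noncomputable section

namespace Pool.Agent.MP417P

open Module Filter Topology

namespace LTS

variable {E : Type} [NormedAddCommGroup E] [NormedSpace ℝ E] [FiniteDimensional ℝ E] {S : LTS E}

omit [FiniteDimensional ℝ E] in
private theorem lr_ip_left {m : ℕ} (c : Fin m → ℝ) (v : Fin m → E) (w : E) :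
    S.ip (∑ i, c i • v i) w = ∑ i, c i * S.ip (v i) w := by
  rw [map_sum, LinearMap.sum_apply]
  exact Finset.sum_congr rfl fun i _ => by rw [map_smul, LinearMap.smul_apply, smul_eq_mul]

/-- the scalar product with the projection is a sum over an orthonormal basis of its range -/
private theorem lr_hs {P₀ : E →L[ℝ] E} (h0 : S.IsPr P₀) {m : ℕ} {e : Fin m → E}
    (he : S.OB (LinearMap.range (P₀ : E →ₗ[ℝ] E)) e) (A : E →L[ℝ] E) :
    S.hs A P₀ = ∑ i, S.ip (A (e i)) (e i) := by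
  have h1 : ∀ a, P₀ (S.ob a) = ∑ i, S.ip (S.ob a) (e i) • e i := fun a => by
    rw [he.exp (P₀ (S.ob a)) ⟨_, rfl⟩]
    refine Finset.sum_congr rfl fun i _ => ?_
    rw [h0.symm, h0.self (he.mem i)]
  have h2 : ∀ i, ∑ a, S.ip (S.ob a) (e i) * S.ip (A (S.ob a)) (e i) =
      S.ip (A (e i)) (e i) := fun i => by
    have h3 : e i = ∑ a, S.ip (e i) (S.ob a) • S.ob a := S.ob_ob.exp (e i) trivial
    have h4 : A (e i) = ∑ a, S.ip (e i) (S.ob a) • A (S.ob a) := by
      conv_lhs => rw [h3]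
      rw [map_sum]
      exact Finset.sum_congr rfl fun a _ => by rw [map_smul]
    rw [h4, lr_ip_left]
    exact Finset.sum_congr rfl fun a _ => by rw [S.symm (e i) (S.ob a)]
  rw [hs]
  have h5 : ∀ a, S.ip (A (S.ob a)) (P₀ (S.ob a)) =
      ∑ i, S.ip (S.ob a) (e i) * S.ip (A (S.ob a)) (e i) := fun a => by
    rw [h1 a, S.symm, lr_ip_left]
    exact Finset.sum_congr rfl fun i _ => by rw [S.symm (e i)]
  rw [Finset.sum_congr rfl fun a _ => h5 a, Finset.sum_comm]
  exact Finset.sum_congr rfl fun i _ => h2 i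

/-- the first order conditions imply that `δ = 0` -/
theorem delta_zero {P₀ δ : E →L[ℝ] E} (h0 : S.IsPr P₀)
    (hc : S.cen (LinearMap.range (P₀ : E →ₗ[ℝ] E)) = ⊥) (hs : ∀ x y, S.ip (δ x) y = S.ip x (δ y))
    (h1 : ∀ x, P₀ (δ x) + δ (P₀ x) = δ x)
    (h2 : ∀ x y z, δ (S.T (P₀ x) (P₀ y) (P₀ z)) + P₀ (S.T (δ x) (P₀ y) (P₀ z) +
      S.T (P₀ x) (δ y) (P₀ z) + S.T (P₀ x) (P₀ y) (δ z)) = S.T (δ x) (P₀ y) (P₀ z) +
      S.T (P₀ x) (δ y) (P₀ z) + S.T (P₀ x) (P₀ y) (δ z))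
    (h3 : ∀ u w, S.hs (S.D u w * δ - δ * S.D u w) P₀ = 0) : δ = 0 := by
  obtain ⟨e, he⟩ : ∃ e : Fin (finrank ℝ (LinearMap.range (P₀ : E →ₗ[ℝ] E))) → E,
    S.OB (LinearMap.range (P₀ : E →ₗ[ℝ] E)) e := S.exists_ob _
  have hrg : ∀ x, P₀ x ∈ LinearMap.range (P₀ : E →ₗ[ℝ] E) := fun x => ⟨x, rfl⟩
  have hpd : ∀ x ∈ LinearMap.range (P₀ : E →ₗ[ℝ] E), P₀ (δ x) = 0 := fun x hx => by
    have h := h1 x
    rw [h0.self hx] at h
    exact add_eq_right.1 h
  have hd : S.Dfm (LinearMap.range (P₀ : E →ₗ[ℝ] E)) e (δ : E →ₗ[ℝ] E) := by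
    refine ⟨h0.sub, he, fun x hx y hy => ?_, fun x hx y hy z hz w hw => ?_, fun u w => ?_⟩
    · show S.ip (δ x) y = 0
      rw [← h0.self hy, ← h0.symm, hpd x hx, map_zero, LinearMap.zero_apply]
    · show S.ip (S.T (δ x) y z + S.T x (δ y) z + S.T x y (δ z)) w = S.ip (δ (S.T x y z)) w
      have h := h2 x y z
      rw [h0.self hx, h0.self hy, h0.self hz] at h
      rw [← h, map_add, LinearMap.add_apply, S.symm (P₀ _) w, hw _ (hrg _), add_zero]
    · show ∑ i, S.ip (S.T u w (δ (e i))) (e i) = 0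
      have h := h3 u w
      rw [lr_hs h0 he] at h
      have h4 : ∀ i, S.ip ((S.D u w * δ - δ * S.D u w) (e i)) (e i) =
          2 * S.ip (S.T u w (δ (e i))) (e i) := fun i => by
        show S.ip (S.T u w (δ (e i)) - δ (S.T u w (e i))) (e i) = _
        rw [map_sub, LinearMap.sub_apply, hs (S.T u w (e i)) (e i), S.inv u w (e i) (δ (e i)),
          S.symm (e i) (S.T u w (δ (e i)))]
        ring
      rw [Finset.sum_congr rfl fun i _ => h4 i, ← Finset.mul_sum] at h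
      exact (mul_eq_zero.1 h).resolve_left two_ne_zero
  have hz : ∀ x ∈ LinearMap.range (P₀ : E →ₗ[ℝ] E), δ x = 0 := fun x hx => hd.zero hc hx
  refine ContinuousLinearMap.ext fun x => ?_
  have h5 : P₀ (δ x) = δ x := by
    have h := h1 x
    rw [hz _ (hrg x), add_zero] at h
    exact h
  have h6 : δ (δ x) = 0 := by
    rw [← h5]
    exact hz _ (hrg _)
  show δ x = 0
  refine S.ip_zero ?_
  rw [hs, h6, map_zero]

private theorem lr_cont₂ {F : Type} [NormedAddCommGroup F] [NormedSpace ℝ F]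
    (B : E →ₗ[ℝ] E →ₗ[ℝ] F) : Continuous fun p : E × E => B p.1 p.2 := by
  have h : Continuous fun x => LinearMap.toContinuousLinearMap (B x) :=
    LinearMap.continuous_of_finiteDimensional
      ((LinearMap.toContinuousLinearMap : (E →ₗ[ℝ] F) ≃ₗ[ℝ] (E →L[ℝ] F)).toLinearMap ∘ₗ B)
  exact (h.comp continuous_fst).clm_apply continuous_snd

private theorem lr_contT {X : Type} [TopologicalSpace X] {f g h : X → E} (hf : Continuous f)
    (hg : Continuous g) (hh : Continuous h) : Continuous fun x => S.T (f x) (g x) (h x) := by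
  have h1 : Continuous fun p : E × E => S.D p.1 p.2 :=
    lr_cont₂ (S.T.compr₂
      (LinearMap.toContinuousLinearMap : (E →ₗ[ℝ] E) ≃ₗ[ℝ] (E →L[ℝ] E)).toLinearMap)
  exact (h1.comp (hf.prodMk hg)).clm_apply hh

private theorem lr_contI {X : Type} [TopologicalSpace X] {f g : X → E} (hf : Continuous f)
    (hg : Continuous g) : Continuous fun x => S.ip (f x) (g x) :=
  (lr_cont₂ S.ip).comp (hf.prodMk hg)

private theorem lr_hs_smul (c : ℝ) (A B : E →L[ℝ] E) : S.hs (c • A) B = c * S.hs A B := by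
  rw [hs, hs, Finset.mul_sum]
  refine Finset.sum_congr rfl fun i _ => ?_
  rw [_root_.smul_apply, map_smul, LinearMap.smul_apply, smul_eq_mul]

omit [FiniteDimensional ℝ E] in
/-- the telescope for the triple product -/
private theorem lr_tele {P₀ A : E →L[ℝ] E} (h0 : S.IsPr P₀) (h : S.IsPr A) (c : ℝ) (x y z : E) :
    (c • (A - P₀)) (S.T (A x) (A y) (A z)) + P₀ (S.T ((c • (A - P₀)) x) (A y) (A z) +
      S.T (P₀ x) ((c • (A - P₀)) y) (A z) + S.T (P₀ x) (P₀ y) ((c • (A - P₀)) z)) =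
      S.T ((c • (A - P₀)) x) (A y) (A z) +
      S.T (P₀ x) ((c • (A - P₀)) y) (A z) + S.T (P₀ x) (P₀ y) ((c • (A - P₀)) z) := by
  have h1 : S.T ((c • (A - P₀)) x) (A y) (A z) + S.T (P₀ x) ((c • (A - P₀)) y) (A z) +
      S.T (P₀ x) (P₀ y) ((c • (A - P₀)) z) =
      c • (S.T (A x) (A y) (A z) - S.T (P₀ x) (P₀ y) (P₀ z)) := by
    simp only [_root_.smul_apply, _root_.sub_apply, map_smul, map_sub,
      LinearMap.smul_apply, LinearMap.sub_apply]
    rw [← smul_add, ← smul_add]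
    congr 1
    abel
  rw [h1, _root_.smul_apply, _root_.sub_apply, h.trip, map_smul,
    map_sub, h0.trip, ← smul_add]
  congr 1
  abel

/-- local rigidity -/
theorem lr {P₀ : E →L[ℝ] E} (h0 : S.IsPr P₀)
    (hc : S.cen (LinearMap.range (P₀ : E →ₗ[ℝ] E)) = ⊥) {P : ℕ → E →L[ℝ] E}
    (hP : ∀ n, S.IsPr (P n)) (hl : Tendsto P atTop (𝓝 P₀)) :
    ∃ n, ∃ k ∈ S.Inn, P n = k.1 * P₀ * (k⁻¹).1 := by
  by_contra hne
  push Not at hne
  choose k hk hmin using fun n => minimal (hP n) h0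
  set Q : ℕ → E →L[ℝ] E := fun n => (k n).1 * P n * ((k n)⁻¹).1 with hQ
  have hQ0 : ∀ n, S.IsPr (Q n) := fun n => (hP n).conj (S.inn_aut _ (hk n))
  have hQne : ∀ n, Q n - P₀ ≠ 0 := fun n h => by
    refine hne n (k n)⁻¹ (S.Inn.inv_mem (hk n)) ?_
    rw [inv_inv, ← sub_eq_zero.1 h, hQ]
    show P n = ((k n)⁻¹).1 * ((k n).1 * P n * ((k n)⁻¹).1) * (k n).1
    rw [mul_assoc, mul_assoc, mul_assoc, Units.inv_mul, mul_one, ← mul_assoc, Units.inv_mul,
      one_mul]
  obtain ⟨Q₀, -, φ, hφ, hlim⟩ := S.isCompact_isPr.tendsto_subseq hQ0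
  have hc1 : Continuous fun A : E →L[ℝ] E => S.hs (A - P₀) (A - P₀) :=
    S.continuous_hs.comp
      ((continuous_id.sub continuous_const).prodMk (continuous_id.sub continuous_const))
  have hQ₀ : Q₀ = P₀ := by
    by_contra h
    have h1 := S.hs_pos (sub_ne_zero.2 h)
    have h2 := (hc1.tendsto Q₀).comp hlim
    have h3 := (hc1.tendsto P₀).comp (hl.comp hφ.tendsto_atTop)
    have h4 : S.hs (P₀ - P₀) (P₀ - P₀) = 0 := by
      rw [sub_self, hs]
      refine Finset.sum_eq_zero fun i _ => ?_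
      rw [_root_.zero_apply, map_zero]
    have h5 := le_of_tendsto_of_tendsto' h2 h3 fun n => (hmin (φ n) _ rfl).1
    rw [h4] at h5
    exact absurd h1 (not_lt.2 h5)
  rw [hQ₀] at hlim
  have hsph : ∀ n, ‖Q (φ n) - P₀‖⁻¹ • (Q (φ n) - P₀) ∈ Metric.sphere (0 : E →L[ℝ] E) 1 :=
    fun n => by
      rw [mem_sphere_zero_iff_norm, norm_smul, norm_inv, norm_norm,
        inv_mul_cancel₀ (norm_ne_zero_iff.2 (hQne _))]
  have : ProperSpace (E →L[ℝ] E) := FiniteDimensional.proper ℝ _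
  obtain ⟨δ, hδ, ψ, hψ, hlim2⟩ := (isCompact_sphere (0 : E →L[ℝ] E) 1).tendsto_subseq hsph
  set A : ℕ → E →L[ℝ] E := fun n => Q (φ (ψ n)) with hA
  set c : ℕ → ℝ := fun n => ‖A n - P₀‖⁻¹ with hcdef
  have hlA : Tendsto (fun n => (A n, c n • (A n - P₀))) atTop (𝓝 (P₀, δ)) :=
    (hlim.comp hψ.tendsto_atTop).prodMk_nhds hlim2
  have key : ∀ {F : Type} [TopologicalSpace F] [T2Space F]
      (g h : (E →L[ℝ] E) × (E →L[ℝ] E) → F), Continuous g → Continuous h →
      (∀ n, g (A n, c n • (A n - P₀)) = h (A n, c n • (A n - P₀))) → g (P₀, δ) = h (P₀, δ) := by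
    intro F _ _ g h hg hh hgh
    refine tendsto_nhds_unique ((hg.tendsto _).comp hlA) ?_
    refine ((hh.tendsto _).comp hlA).congr fun n => (hgh n).symm
  have ca : ∀ x : E, Continuous fun p : (E →L[ℝ] E) × (E →L[ℝ] E) => p.1 x := fun x =>
    continuous_fst.clm_apply continuous_const
  have cd : ∀ x : E, Continuous fun p : (E →L[ℝ] E) × (E →L[ℝ] E) => p.2 x := fun x =>
    continuous_snd.clm_apply continuous_const
  have hA0 : ∀ n, S.IsPr (A n) := fun n => hQ0 _
  have hzero : δ = 0 := by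
    refine delta_zero h0 hc (fun x y => ?_) (fun x => ?_) (fun x y z => ?_) fun u w => ?_
    · refine key (fun p => S.ip (p.2 x) y) (fun p => S.ip x (p.2 y))
        (lr_contI (cd x) continuous_const) (lr_contI continuous_const (cd y)) fun n => ?_
      show S.ip (c n • (A n x - P₀ x)) y = S.ip x (c n • (A n y - P₀ y))
      rw [map_smul, map_smul, LinearMap.smul_apply, map_sub, map_sub, LinearMap.sub_apply,
        (hA0 n).symm, h0.symm]
    · refine key (fun p => P₀ (p.2 x) + p.2 (p.1 x)) (fun p => p.2 x)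
        ((P₀.continuous.comp (cd x)).add (continuous_snd.clm_apply (ca x))) (cd x) fun n => ?_
      show P₀ (c n • (A n x - P₀ x)) + c n • (A n (A n x) - P₀ (A n x)) =
        c n • (A n x - P₀ x)
      rw [map_smul, map_sub, h0.idem, (hA0 n).idem, ← smul_add]
      congr 1
      abel
    · refine key (fun p => p.2 (S.T (p.1 x) (p.1 y) (p.1 z)) + P₀ (S.T (p.2 x) (p.1 y) (p.1 z) +
        S.T (P₀ x) (p.2 y) (p.1 z) + S.T (P₀ x) (P₀ y) (p.2 z)))
        (fun p => S.T (p.2 x) (p.1 y) (p.1 z) +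
        S.T (P₀ x) (p.2 y) (p.1 z) + S.T (P₀ x) (P₀ y) (p.2 z)) ?_ ?_ fun n => ?_
      · exact (continuous_snd.clm_apply (lr_contT (ca x) (ca y) (ca z))).add
          (P₀.continuous.comp (((lr_contT (cd x) (ca y) (ca z)).add
            (lr_contT continuous_const (cd y) (ca z))).add
            (lr_contT continuous_const continuous_const (cd z))))
      · exact ((lr_contT (cd x) (ca y) (ca z)).add
            (lr_contT continuous_const (cd y) (ca z))).add
            (lr_contT continuous_const continuous_const (cd z))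
      · exact lr_tele h0 (hA0 n) (c n) x y z
    · refine key (fun p => S.hs (S.D u w * p.2 - p.2 * S.D u w) P₀) (fun _ => 0) ?_
        continuous_const fun n => ?_
      · exact S.continuous_hs.comp
          (((continuous_const.mul continuous_snd).sub
            (continuous_snd.mul continuous_const)).prodMk continuous_const)
      · have h1 := (hmin (φ (ψ n)) _ rfl).2 u w
        show S.hs (S.D u w * (c n • (A n - P₀)) - (c n • (A n - P₀)) * S.D u w) P₀ = 0
        rw [mul_smul_comm, smul_mul_assoc, ← smul_sub, lr_hs_smul]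
        exact mul_eq_zero_of_right _ h1
  rw [hzero, mem_sphere_zero_iff_norm, norm_zero] at hδ
  exact zero_ne_one hδ

end LTS

end Pool.Agent.MP417P
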