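import Pool.Agent.Lib.MP_417c68_gt_P.A.Ric

/-!
# MP_417c68_gt, project P, module D/LrA: local rigidity, algebra, first part

`V` is a subtriple, `psi : V → V^⊥` an infinitesimal deformation (`h1`) which is orthogonal to the
orbit of the inner automorphisms (`h2`).  `e` is an orthonormal basis of `V`.

PROOFS (text, section 3).  `Aop x y z := T (psi x) y z + T x (psi y) z`.
* `pi_com` (iii), (iv).  Let `P` be the orthogonal projection onto `V` (`exists_proj`), `x, y ∈ V`,
  `D = T x y`; `D` preserves `V` and `perp V` (`inv`).  `h1` says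
  `(1 - P) (Aop x y z + D (psi z)) = psi (D z)` for `z ∈ V`, i.e. for `Phi z = D (psi z) - psi (D
  z)`:
  `Phi z = -(1 - P) (Aop x y z)`.  For `z ∈ V`:
  `D (Phi z) - Phi (D z) = -(1 - P) (D (Aop x y z) - Aop x y (D z))`, and by `der_op`
  `D (Aop x y z) - Aop x y (D z)` is the sum of four operators `T u w` applied to `z`.  By `h2` (in
  the form
  `∑ ip (psi e_i) (T u w e_i) = 0`) `∑ ip (psi e_i) (D (Phi e_i) - Phi (D e_i)) = 0`.  Since `D` is
  skew
  on `V` and on `E` this sum is `-∑ ip (Phi e_i) (Phi e_i)` (`OB.swap` for the term with `Phi (D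
  e_i)`
  and `psi (D e_i)`).  So `Phi e_i = 0` and `Phi = 0` on `V`.
* `aop_zero` (v): by `pi_com` and `h1` `(1 - P) (Aop x y z) = 0`, so `Aop x y z ∈ V`; and for `w ∈
  V`
  `ip (Aop x y z) w = ip (T z w (psi x)) y + ip (T z w x) (psi y) = 0` (`ps`; `T z w` preserves `V`
  and
  `perp V`).
* `aop` (vi): `ip (Aop x y (psi x)) y + ip (Aop x y x) (psi y) = -ip (psi x) (Aop x y y) + 0 = 0`,
  so
  `T (psi x) y + T x (psi y) = 0` by `T_zero₂` with `(x, y, u, w) := (psi x, y, x, psi y)`.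
-/

noncomputable section

namespace Pool.Agent.MP417P

open Module

namespace LTS

variable {E : Type} [AddCommGroup E] [Module ℝ E] [FiniteDimensional ℝ E]

/-- infinitesimal deformations of the subtriple `V` which are orthogonal to the orbit -/
structure Dfm (S : LTS E) (V : Submodule ℝ E) {m : ℕ} (e : Fin m → E) (psi : E →ₗ[ℝ] E) :
    Prop where
  sub : S.Sub V
  ob : S.OB V e
  perp : ∀ x ∈ V, psi x ∈ S.perp V
  h1 : ∀ x ∈ V, ∀ y ∈ V, ∀ z ∈ V, ∀ w ∈ S.perp V,
    S.ip (S.T (psi x) y z + S.T x (psi y) z + S.T x y (psi z)) w = S.ip (psi (S.T x y z)) w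
  h2 : ∀ u w, ∑ i, S.ip (S.T u w (psi (e i))) (e i) = 0

variable {S : LTS E} {V : Submodule ℝ E} {m : ℕ} {e : Fin m → E} {psi : E →ₗ[ℝ] E}

/-- (ii) -/
theorem Dfm.sum_zero (h : S.Dfm V e psi) (z : E) : ∑ i, S.T (psi (e i)) (e i) z = 0 := by
  have key : ∀ w, S.ip (∑ i, S.T (psi (e i)) (e i) z) w = 0 := fun w => by
    have h2 := h.h2 z w
    rw [map_sum, LinearMap.sum_apply, ← h2]
    exact Finset.sum_congr rfl fun i _ => S.ps _ _ _ _
  exact S.ip_zero (key _)

omit [FiniteDimensional ℝ E] in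
private theorem lrA_mem_perp (h : S.Dfm V e psi) {x y p : E} (hx : x ∈ V) (hy : y ∈ V)
    (hp : p ∈ S.perp V) : S.T x y p ∈ S.perp V := fun w hw => by
  rw [S.inv, hp _ (h.sub x hx y hy w hw), neg_zero]

/-- the map `Phi` of the proof of `pi_com` -/
private def lrAPhi (S : LTS E) (psi : E →ₗ[ℝ] E) (x y : E) : E →ₗ[ℝ] E :=
  (S.T x y).comp psi - psi.comp (S.T x y)

omit [FiniteDimensional ℝ E] in
private theorem lrAPhi_apply (S : LTS E) (psi : E →ₗ[ℝ] E) (x y z : E) :
    lrAPhi S psi x y z = S.T x y (psi z) - psi (S.T x y z) := rfl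

private theorem lrAPhi_ip (h : S.Dfm V e psi) {x y z w : E} (hx : x ∈ V) (hy : y ∈ V)
    (hz : z ∈ V) (hw : w ∈ S.perp V) :
    S.ip (lrAPhi S psi x y z) w = -S.ip (S.T (psi x) y z + S.T x (psi y) z) w := by
  have h1 := h.h1 x hx y hy z hz w hw
  rw [map_add, LinearMap.add_apply] at h1
  rw [lrAPhi_apply, map_sub, LinearMap.sub_apply, ← h1]
  ring

omit [FiniteDimensional ℝ E] in
private theorem lrA_h2 (h : S.Dfm V e psi) (u w : E) :
    ∑ i, S.ip (S.T u w (e i)) (psi (e i)) = 0 := by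
  have h2 := h.h2 u w
  rw [← neg_eq_zero, ← Finset.sum_neg_distrib, ← h2]
  exact Finset.sum_congr rfl fun i _ => by
    rw [S.inv, neg_neg, S.symm]

omit [FiniteDimensional ℝ E] in
private theorem lrA_swap (h : S.Dfm V e psi) {x y : E} (hx : x ∈ V) (hy : y ∈ V) :
    ∑ i, S.ip (lrAPhi S psi x y (S.T x y (e i))) (psi (e i)) =
      -∑ i, S.ip (lrAPhi S psi x y (e i)) (psi (S.T x y (e i))) := by
  have hs := h.ob.swap (S.ip.compl₁₂ (lrAPhi S psi x y) psi) (A := S.T x y) (A' := -S.T x y)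
    (fun z hz => h.sub x hx y hy z hz) (fun z hz => V.neg_mem (h.sub x hx y hy z hz))
    (fun z _ w _ => by rw [S.inv, LinearMap.neg_apply, map_neg])
  rw [← Finset.sum_neg_distrib]
  refine hs.trans (Finset.sum_congr rfl fun i _ => ?_)
  show S.ip (lrAPhi S psi x y (e i)) (psi (-(S.T x y (e i)))) = _
  rw [map_neg, map_neg]

private theorem lrA_sum (h : S.Dfm V e psi) {x y : E} (hx : x ∈ V) (hy : y ∈ V) :
    ∑ i, S.ip (lrAPhi S psi x y (e i)) (lrAPhi S psi x y (e i)) = 0 := by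
  have hterm : ∀ i, S.ip (lrAPhi S psi x y (e i)) (S.T x y (psi (e i))) +
      S.ip (lrAPhi S psi x y (S.T x y (e i))) (psi (e i)) =
      S.ip (S.T (S.T x y (psi x)) y (e i)) (psi (e i)) +
      S.ip (S.T (psi x) (S.T x y y) (e i)) (psi (e i)) +
      (S.ip (S.T (S.T x y x) (psi y) (e i)) (psi (e i)) +
      S.ip (S.T x (S.T x y (psi y)) (e i)) (psi (e i))) := fun i => by
    have hp := h.perp (e i) (h.ob.mem i)
    rw [lrAPhi_ip h hx hy (h.ob.mem i) (lrA_mem_perp h hx hy hp),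
      lrAPhi_ip h hx hy (h.sub x hx y hy _ (h.ob.mem i)) hp, ← S.inv]
    have d1 := S.der_op x y (psi x) y (e i)
    have d2 := S.der_op x y x (psi y) (e i)
    have e1 := congrArg (fun v => S.ip v (psi (e i))) d1
    have e2 := congrArg (fun v => S.ip v (psi (e i))) d2
    simp only [map_add, map_sub, LinearMap.add_apply, LinearMap.sub_apply] at e1 e2 ⊢
    linarith
  have hsum : ∑ i, (S.ip (lrAPhi S psi x y (e i)) (S.T x y (psi (e i))) +
      S.ip (lrAPhi S psi x y (S.T x y (e i))) (psi (e i))) = 0 := by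
    rw [Finset.sum_congr rfl fun i _ => hterm i]
    simp only [Finset.sum_add_distrib]
    rw [lrA_h2 h, lrA_h2 h, lrA_h2 h, lrA_h2 h]
    ring
  rw [Finset.sum_add_distrib, lrA_swap h hx hy, ← sub_eq_add_neg, ← Finset.sum_sub_distrib] at hsum
  rw [← hsum]
  exact Finset.sum_congr rfl fun i _ => by
    conv_lhs => rw [lrAPhi_apply S psi x y (e i), map_sub]
    rw [lrAPhi_apply]

/-- (iii) -/
theorem Dfm.pi_com (h : S.Dfm V e psi) {x y z : E} (hx : x ∈ V) (hy : y ∈ V) (hz : z ∈ V) :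
    S.T x y (psi z) = psi (S.T x y z) := by
  have h0 : ∀ i, lrAPhi S psi x y (e i) = 0 := fun i => S.ip_zero
    ((Finset.sum_eq_zero_iff_of_nonneg fun i _ => S.ip_nonneg _).1 (lrA_sum h hx hy) i
      (Finset.mem_univ i))
  have h1 : lrAPhi S psi x y z = 0 := by
    rw [h.ob.exp z hz, map_sum]
    exact Finset.sum_eq_zero fun i _ => by rw [map_smul, h0 i, smul_zero]
  rw [lrAPhi_apply] at h1
  exact sub_eq_zero.1 h1

/-- (v) -/
theorem Dfm.aop_zero (h : S.Dfm V e psi) {x y z : E} (hx : x ∈ V) (hy : y ∈ V) (hz : z ∈ V) :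
    S.T (psi x) y z + S.T x (psi y) z = 0 := by
  have hV : S.T (psi x) y z + S.T x (psi y) z ∈ V := by
    rw [← S.perp_perp V]
    intro w hw
    have h1 := h.h1 x hx y hy z hz w hw
    rw [map_add, LinearMap.add_apply, h.pi_com hx hy hz] at h1
    linarith
  have h0 : ∀ w ∈ V, S.ip (S.T (psi x) y z + S.T x (psi y) z) w = 0 := fun w hw => by
    rw [map_add, LinearMap.add_apply, S.ps (psi x) y z w, S.ps x (psi y) z w,
      lrA_mem_perp h hz hw (h.perp x hx) y hy, S.symm,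
      h.perp y hy _ (h.sub z hz w hw x hx), add_zero]
  exact S.ip_zero (h0 _ hV)

/-- (vi) -/
theorem Dfm.aop (h : S.Dfm V e psi) {x y : E} (hx : x ∈ V) (hy : y ∈ V) :
    S.T (psi x) y = S.T (psi y) x := by
  have h1 : S.T (psi x) y + S.T x (psi y) = 0 := by
    refine S.T_zero₂ ?_
    rw [h.aop_zero hx hy hx, map_add, LinearMap.add_apply, S.inv (psi x) y (psi x) y,
      S.inv x (psi y) (psi x) y, ← neg_add, ← map_add, h.aop_zero hx hy hy]
    simp
  rw [S.T_neg (psi y) x] at h1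
  exact add_neg_eq_zero.1 h1

end LTS

end Pool.Agent.MP417P
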