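import Pool.Agent.Lib.MP_417c68_gt_P.D.LrA

/-!
# MP_417c68_gt, project P, module D/LrB: local rigidity, algebra, second part

PROOF of `Dfm.zero` (text, section 3, (vii)).  `Y = ∑ i j, ip (T e_i e_j (psi e_i)) (psi e_j)`.
* By `pi_com` `T e_i e_j (psi e_i) = psi (T e_i e_j e_i) = -psi (T e_j e_i e_i)`, so
  `Y = -∑ j, ip (psi (R e_j)) (psi e_j)`, `R x = ∑ i, T x e_i e_i` on `V`.  `R` is symmetric on `V`
  and
  `ip (R x) x = -∑ ip (T x e_i x) e_i > 0` for `0 ≠ x ∈ V` (otherwise `T x e_i = 0` for all `i` and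
  `x` is
  central in `V`).  With an orthonormal basis `f` of `E` (or of `perp V`) and the vectors
  `g_a = ∑ j, ip f_a (psi e_j) • e_j ∈ V`: `∑ j, ip (psi (R e_j)) (psi e_j) = ∑ a, ip (R g_a) g_a`
  (Parseval twice).  So `Y ≤ 0`, and `Y = 0` only if all `g_a = 0`, i.e. `psi e_j = 0` for all `j`.
* By `jac` `T e_i e_j (psi e_i) = -T e_j (psi e_i) e_i - T (psi e_i) e_i e_j`; the second terms sum
  to `0`
  (`sum_zero`), so `Y = ∑ i j, ip (T (psi e_i) e_j e_i) (psi e_j) = ∑ i j, ip (T (psi e_j) e_i e_i)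
  (psi e_j)`
  (`aop`) `= -∑ i j, ip e_i (T (psi e_j) e_i (psi e_j)) ≥ 0` (`inv`, `T_nonpos`).
-/

noncomputable section

namespace Pool.Agent.MP417P

open Module

namespace LTS

variable {E : Type} [AddCommGroup E] [Module ℝ E] [FiniteDimensional ℝ E]
variable {S : LTS E} {V : Submodule ℝ E} {m : ℕ} {e : Fin m → E} {psi : E →ₗ[ℝ] E}

/-- the Ricci operator of `V` -/
private def RV (S : LTS E) (e : Fin m → E) (x : E) : E := ∑ i, S.T x (e i) (e i)

private def gv (S : LTS E) (e : Fin m → E) (psi : E →ₗ[ℝ] E) (f : E) : E :=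
  ∑ j, S.ip (psi (e j)) f • e j

omit [FiniteDimensional ℝ E] in
private theorem rv_symm (x y : E) : S.ip (RV S e x) y = S.ip x (RV S e y) := by
  rw [RV, RV, map_sum, map_sum, LinearMap.sum_apply]
  refine Finset.sum_congr rfl fun i _ => ?_
  rw [S.ps, S.inv, S.skew y, map_neg]

omit [FiniteDimensional ℝ E] in
private theorem ip_rv (x : E) : S.ip (RV S e x) x = ∑ i, -S.ip (S.T x (e i) x) (e i) := by
  rw [RV, map_sum, LinearMap.sum_apply]
  refine Finset.sum_congr rfl fun i _ => ?_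
  rw [S.inv, S.symm (e i)]

omit [FiniteDimensional ℝ E] in
private theorem rv_nonneg (x : E) : 0 ≤ S.ip (RV S e x) x := by
  rw [ip_rv]
  exact Finset.sum_nonneg fun i _ => neg_nonneg.2 (S.T_nonpos x (e i))

omit [FiniteDimensional ℝ E] in
private theorem rv_zero (he : S.OB V e) {x : E} (h0 : S.ip (RV S e x) x = 0) :
    ∀ y ∈ V, S.T x y = 0 := by
  rw [ip_rv, Finset.sum_eq_zero_iff_of_nonneg
    fun i _ => neg_nonneg.2 (S.T_nonpos x (e i))] at h0
  intro y hy
  rw [he.exp y hy, map_sum]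
  refine Finset.sum_eq_zero fun i _ => ?_
  rw [map_smul, S.T_zero (neg_eq_zero.1 (h0 i (Finset.mem_univ i))), smul_zero]

omit [FiniteDimensional ℝ E] in
private theorem gv_mem (he : S.OB V e) (f : E) : gv S e psi f ∈ V :=
  V.sum_mem fun j _ => V.smul_mem _ (he.mem j)

omit [FiniteDimensional ℝ E] in
private theorem ip_psi (he : S.OB V e) (f : E) {x : E} (hx : x ∈ V) :
    S.ip (psi x) f = S.ip x (gv S e psi f) := by
  conv_lhs => rw [he.exp x hx]
  rw [gv, map_sum, map_sum, map_sum, LinearMap.sum_apply]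
  refine Finset.sum_congr rfl fun j _ => ?_
  rw [map_smul, map_smul, map_smul, LinearMap.smul_apply, smul_eq_mul, smul_eq_mul, mul_comm]

private theorem Dfm.sum_eq (h : S.Dfm V e psi) :
    ∑ i, ∑ j, S.ip (S.T (e i) (e j) (psi (e i))) (psi (e j)) =
      -∑ j, S.ip (psi (RV S e (e j))) (psi (e j)) := by
  rw [Finset.sum_comm, ← Finset.sum_neg_distrib]
  refine Finset.sum_congr rfl fun j _ => ?_
  rw [RV, map_sum, map_sum, LinearMap.sum_apply, ← Finset.sum_neg_distrib]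
  refine Finset.sum_congr rfl fun i _ => ?_
  rw [h.pi_com (h.ob.mem i) (h.ob.mem j) (h.ob.mem i), S.skew (e i), map_neg, map_neg,
    LinearMap.neg_apply]

private theorem Dfm.sum_rv (h : S.Dfm V e psi) :
    ∑ a, S.ip (RV S e (gv S e psi (S.ob a))) (gv S e psi (S.ob a)) =
      ∑ j, S.ip (psi (RV S e (e j))) (psi (e j)) := by
  have hR : ∀ x ∈ V, RV S e x ∈ V := fun x hx =>
    V.sum_mem fun i _ => h.sub x hx _ (h.ob.mem i) _ (h.ob.mem i)
  have h1 : ∀ j, S.ip (psi (RV S e (e j))) (psi (e j)) =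
      ∑ a, S.ip (psi (RV S e (e j))) (S.ob a) * S.ip (psi (e j)) (S.ob a) :=
    fun j => S.ob_ob.parseval trivial _
  simp only [h1]
  rw [Finset.sum_comm]
  refine Finset.sum_congr rfl fun a _ => ?_
  have hg := gv_mem (psi := psi) h.ob (S.ob a)
  rw [h.ob.parseval (hR _ hg)]
  refine Finset.sum_congr rfl fun j _ => ?_
  rw [ip_psi h.ob _ (hR _ (h.ob.mem j)), ip_psi h.ob _ (h.ob.mem j), rv_symm, rv_symm,
    S.symm (gv S e psi (S.ob a)) (e j), S.symm (gv S e psi (S.ob a)) (RV S e (e j)), rv_symm]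

theorem Dfm.y_le (h : S.Dfm V e psi) (hc : S.cen V = ⊥) :
    ∑ i, ∑ j, S.ip (S.T (e i) (e j) (psi (e i))) (psi (e j)) ≤ 0 ∧
      (∑ i, ∑ j, S.ip (S.T (e i) (e j) (psi (e i))) (psi (e j)) = 0 → ∀ x ∈ V, psi x = 0) := by
  have hY : ∑ i, ∑ j, S.ip (S.T (e i) (e j) (psi (e i))) (psi (e j)) =
      -∑ a, S.ip (RV S e (gv S e psi (S.ob a))) (gv S e psi (S.ob a)) := by
    rw [h.sum_eq, ← h.sum_rv]
  have hnn : ∀ a, 0 ≤ S.ip (RV S e (gv S e psi (S.ob a))) (gv S e psi (S.ob a)) :=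
    fun a => rv_nonneg _
  refine ⟨?_, fun h0 x hx => ?_⟩
  · rw [hY]
    exact neg_nonpos.2 (Finset.sum_nonneg fun a _ => hnn a)
  · rw [hY, neg_eq_zero, Finset.sum_eq_zero_iff_of_nonneg fun a _ => hnn a] at h0
    have hg : ∀ a, gv S e psi (S.ob a) = 0 := by
      intro a
      have hmem : gv S e psi (S.ob a) ∈ V := gv_mem h.ob _
      have hc' : gv S e psi (S.ob a) ∈ S.cen V :=
        mem_cen.2 ⟨hmem, rv_zero h.ob (h0 a (Finset.mem_univ a))⟩
      rw [hc] at hc'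
      exact (Submodule.mem_bot ℝ).1 hc'
    rw [S.ob_ob.exp (psi x) trivial]
    refine Finset.sum_eq_zero fun a _ => ?_
    rw [ip_psi h.ob _ hx, hg a, map_zero, zero_smul]

theorem Dfm.y_ge (h : S.Dfm V e psi) :
    0 ≤ ∑ i, ∑ j, S.ip (S.T (e i) (e j) (psi (e i))) (psi (e j)) := by
  have key : ∀ j, ∑ i, S.ip (S.T (e i) (e j) (psi (e i))) (psi (e j)) =
      ∑ i, -S.ip (S.T (psi (e j)) (e i) (psi (e j))) (e i) := by
    intro j
    have h1 : ∀ i, S.ip (S.T (e i) (e j) (psi (e i))) (psi (e j)) =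
        -S.ip (S.T (psi (e j)) (e i) (psi (e j))) (e i) -
          S.ip (S.T (psi (e i)) (e i) (e j)) (psi (e j)) := by
      intro i
      have hj : S.T (e i) (e j) (psi (e i)) =
          S.T (psi (e j)) (e i) (e i) - S.T (psi (e i)) (e i) (e j) := by
        have := S.jac (e i) (e j) (psi (e i))
        rw [S.skew (e j) (psi (e i)), h.aop (h.ob.mem i) (h.ob.mem j)] at this
        rw [eq_sub_iff_add_eq, ← sub_eq_zero, ← this]
        abel
      rw [hj, map_sub, LinearMap.sub_apply, S.inv, S.symm (e i)]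
    have h2 : ∑ i, S.ip (S.T (psi (e i)) (e i) (e j)) (psi (e j)) = 0 := by
      have := congrArg (fun x => S.ip x (psi (e j))) (h.sum_zero (e j))
      simpa only [map_sum, LinearMap.sum_apply, map_zero, LinearMap.zero_apply] using this
    rw [Finset.sum_congr rfl fun i _ => h1 i, Finset.sum_sub_distrib, h2, sub_zero]
  rw [Finset.sum_comm]
  refine Finset.sum_nonneg fun j _ => ?_
  rw [key]
  exact Finset.sum_nonneg fun i _ => neg_nonneg.2 (S.T_nonpos _ _)

theorem Dfm.zero (h : S.Dfm V e psi) (hc : S.cen V = ⊥) {x : E} (hx : x ∈ V) : psi x = 0 := by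
  exact (h.y_le hc).2 (le_antisymm (h.y_le hc).1 h.y_ge) x hx

end LTS

end Pool.Agent.MP417P
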