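import Pool.Agent.Lib.MP_417c68_gt_P.B.Inn
import Pool.Agent.Lib.MP_417c68_gt_P.D.LrB

/-!
# MP_417c68_gt, project P, module D/Pr: projections onto subtriples

`hs A B = ∑ i, ip (A e_i) (B e_i)` is the Hilbert-Schmidt scalar product of operators.

PROOFS.
* `IsPr` is closed under limits and under conjugation by automorphisms.  For a subtriple `V` the
  orthogonal projection is `IsPr` (`exists_isPr`).
* `hs` does not depend on the orthonormal basis (`hs_conj`: invariance under conjugation by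
  isometries, use `OB.parseval` twice or `OB.swap`), it is positive definite.
* `minimal`: among the conjugates `k P k⁻¹`, `k ∈ Inn`, of `P` there is one, `P'`, with minimal
  `hs (P' - P₀) (P' - P₀)` (compactness), so `hs (P' - P₀) (P' - P₀) ≤ hs (P - P₀) (P - P₀)`; and
  for all `u w`: `∑ i, ip (T u w (P₀ e_i)) (P' e_i)`-type stationarity.  Write `D = T u w` (skew),
  then
  `hs (exp (t D) P' exp (-t D) - P₀) (..) = hs P' P' + hs P₀ P₀ - 2 hs (exp (t D) P' exp (-t D))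
  P₀` is
  minimal at `t = 0`; the derivative gives `hs (D P' - P' D) P₀ = 0`.  Since
  `hs (D P₀ - P₀ D) P₀ = 0` (`tr ((D P₀ - P₀ D) P₀) = 0`) the same holds for `P' - P₀` instead of
  `P'`.
-/

noncomputable section

namespace Pool.Agent.MP417P

open Module

namespace LTS

variable {E : Type} [NormedAddCommGroup E] [NormedSpace ℝ E] [FiniteDimensional ℝ E] (S : LTS E)

omit [FiniteDimensional ℝ E] in
private theorem kinv (k : GLE E) (x : E) : k.1 ((k⁻¹).1 x) = x := by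
  have h : (k.1 * (k⁻¹).1) = 1 := by rw [← Units.val_mul, mul_inv_cancel, Units.val_one]
  exact DFunLike.congr_fun h x

omit [FiniteDimensional ℝ E] in
private theorem kinv' (k : GLE E) (x : E) : (k⁻¹).1 (k.1 x) = x := by
  have h : ((k⁻¹).1 * k.1) = 1 := by rw [← Units.val_mul, inv_mul_cancel, Units.val_one]
  exact DFunLike.congr_fun h x

/-- the Hilbert-Schmidt scalar product -/
def hs (A B : E →L[ℝ] E) : ℝ := ∑ i, S.ip (A (S.ob i)) (B (S.ob i))

theorem continuous_hs : Continuous fun p : (E →L[ℝ] E) × (E →L[ℝ] E) => S.hs p.1 p.2 := by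
  unfold hs
  refine continuous_finsetSum _ fun i _ => ?_
  exact S.continuous_ip.comp ((continuous_fst.clm_apply continuous_const).prodMk
    (continuous_snd.clm_apply continuous_const))

theorem hs_pos {A : E →L[ℝ] E} (h : A ≠ 0) : 0 < S.hs A A := by
  unfold hs
  have hex : ∃ i, A (S.ob i) ≠ 0 := by
    by_contra hcon
    push Not at hcon
    apply h
    ext x
    have h1 := S.ob_ob.exp x trivial
    rw [h1, map_sum]
    simp [hcon]
  obtain ⟨i, hi⟩ := hex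
  exact Finset.sum_pos' (fun j _ => S.ip_nonneg _) ⟨i, Finset.mem_univ i, S.pos _ hi⟩

theorem hs_conj {k : GLE E} (hk : S.Aut k) (A B : E →L[ℝ] E) :
    S.hs (k.1 * A * (k⁻¹).1) (k.1 * B * (k⁻¹).1) = S.hs A B := by
  have hkk := kinv k
  have hkk' := kinv' k
  have h1 : ∀ i, S.ip ((k.1 * A * (k⁻¹).1) (S.ob i)) ((k.1 * B * (k⁻¹).1) (S.ob i)) =
      (S.ip.compl₁₂ (A : E →ₗ[ℝ] E) ((B : E →ₗ[ℝ] E).comp ((k⁻¹).1 : E →ₗ[ℝ] E)))
        (((k⁻¹).1 : E →ₗ[ℝ] E) (S.ob i)) (S.ob i) := fun i => by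
    show S.ip (k.1 (A ((k⁻¹).1 (S.ob i)))) (k.1 (B ((k⁻¹).1 (S.ob i)))) =
      S.ip (A ((k⁻¹).1 (S.ob i))) (B ((k⁻¹).1 (S.ob i)))
    exact hk.2 _ _
  unfold hs
  rw [Finset.sum_congr rfl fun i _ => h1 i]
  rw [S.ob_ob.swap (A := ((k⁻¹).1 : E →ₗ[ℝ] E)) (A' := (k.1 : E →ₗ[ℝ] E))
    (S.ip.compl₁₂ (A : E →ₗ[ℝ] E) ((B : E →ₗ[ℝ] E).comp ((k⁻¹).1 : E →ₗ[ℝ] E)))
    (fun _ _ => trivial) (fun _ _ => trivial) (fun x _ y _ => by
      show S.ip ((k⁻¹).1 x) y = S.ip x (k.1 y)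
      have h2 := hk.2 ((k⁻¹).1 x) y
      rw [hkk] at h2
      exact h2.symm)]
  refine Finset.sum_congr rfl fun i _ => ?_
  show S.ip (A (S.ob i)) (B ((k⁻¹).1 (k.1 (S.ob i)))) = S.ip (A (S.ob i)) (B (S.ob i))
  rw [hkk']

theorem isClosed_isPr : IsClosed {P : E →L[ℝ] E | S.IsPr P} := by
  have e1 : {P : E →L[ℝ] E | S.IsPr P} =
      (⋂ x : E, {P : E →L[ℝ] E | P (P x) = P x}) ∩
      ((⋂ x : E, ⋂ y : E, {P : E →L[ℝ] E | S.ip (P x) y = S.ip x (P y)}) ∩
      (⋂ x : E, ⋂ y : E, ⋂ z : E,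
        {P : E →L[ℝ] E | P (S.T (P x) (P y) (P z)) = S.T (P x) (P y) (P z)})) := by
    ext P
    constructor
    · intro h
      refine ⟨Set.mem_iInter.2 fun x => h.idem x, ?_, ?_⟩
      · exact Set.mem_iInter.2 fun x => Set.mem_iInter.2 fun y => h.symm x y
      · exact Set.mem_iInter.2 fun x => Set.mem_iInter.2 fun y => Set.mem_iInter.2 fun z =>
          h.trip x y z
    · rintro ⟨h1, h2, h3⟩
      exact ⟨fun x => Set.mem_iInter.1 h1 x,
        fun x y => Set.mem_iInter.1 (Set.mem_iInter.1 h2 x) y,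
        fun x y z => Set.mem_iInter.1 (Set.mem_iInter.1 (Set.mem_iInter.1 h3 x) y) z⟩
  have ha : ∀ x : E, Continuous fun P : E →L[ℝ] E => P x := fun x =>
    continuous_id.clm_apply continuous_const
  rw [e1]
  refine IsClosed.inter (isClosed_iInter fun x => ?_) (IsClosed.inter
    (isClosed_iInter fun x => isClosed_iInter fun y => ?_)
    (isClosed_iInter fun x => isClosed_iInter fun y => isClosed_iInter fun z => ?_))
  · exact isClosed_eq (continuous_id.clm_apply (ha x)) (ha x)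
  · exact isClosed_eq (S.continuous_ip.comp ((ha x).prodMk continuous_const))
      (S.continuous_ip.comp (continuous_const.prodMk (ha y)))
  · have hT : Continuous fun P : E →L[ℝ] E => S.T (P x) (P y) (P z) :=
      S.continuous_T.comp ((ha x).prodMk ((ha y).prodMk (ha z)))
    exact isClosed_eq (continuous_id.clm_apply hT) hT

/-- the projections are bounded: they form a compact set -/
theorem isCompact_isPr : IsCompact {P : E →L[ℝ] E | S.IsPr P} := by
  have : ProperSpace (E →L[ℝ] E) := FiniteDimensional.proper ℝ (E →L[ℝ] E)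
  refine Metric.isCompact_of_isClosed_isBounded (isClosed_isPr S) ?_
  obtain ⟨C, hC, hb⟩ := S.ip_bound
  rw [isBounded_iff_forall_norm_le]
  refine ⟨C, fun P hP => ?_⟩
  have hP' : S.IsPr P := hP
  refine ContinuousLinearMap.opNorm_le_bound _ hC.le fun x => ?_
  have h1 : S.ip (P x) (P x) ≤ S.ip x x := by
    have h2 : S.ip (P x) (P x) = S.ip x (P x) := by rw [hP'.symm, hP'.idem]
    have h3 := S.ip_nonneg (x - P x)
    have h4 : S.ip (x - P x) (x - P x) = S.ip x x - S.ip x (P x) - S.ip (P x) x +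
        S.ip (P x) (P x) := by
      simp only [map_sub, LinearMap.sub_apply]
      ring
    rw [h4, S.symm (P x) x] at h3
    linarith
  have h5 : ‖P x‖ ^ 2 ≤ (C * ‖x‖) ^ 2 := by
    calc ‖P x‖ ^ 2 ≤ C * S.ip (P x) (P x) := (hb _).2
      _ ≤ C * S.ip x x := by gcongr
      _ ≤ C * (C * ‖x‖ ^ 2) := by
        have := (hb x).1
        gcongr
      _ = (C * ‖x‖) ^ 2 := by ring
  exact le_of_sq_le_sq h5 (by positivity)

variable {S}

theorem IsPr.conj {P : E →L[ℝ] E} (h : S.IsPr P) {k : GLE E} (hk : S.Aut k) :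
    S.IsPr (k.1 * P * (k⁻¹).1) := by
  have hkk := kinv k
  have hkk' := kinv' k
  have hs1 : ∀ x y, S.ip (k.1 x) y = S.ip x ((k⁻¹).1 y) := fun x y => by
    have h2 := hk.2 x ((k⁻¹).1 y)
    rw [hkk] at h2
    exact h2
  refine ⟨fun x => ?_, fun x y => ?_, fun x y z => ?_⟩
  · show k.1 (P ((k⁻¹).1 (k.1 (P ((k⁻¹).1 x))))) = k.1 (P ((k⁻¹).1 x))
    rw [hkk', h.idem]
  · show S.ip (k.1 (P ((k⁻¹).1 x))) y = S.ip x (k.1 (P ((k⁻¹).1 y)))
    rw [hs1, h.symm, S.symm x, hs1, S.symm]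
  · show k.1 (P ((k⁻¹).1 (S.T (k.1 (P ((k⁻¹).1 x))) (k.1 (P ((k⁻¹).1 y)))
      (k.1 (P ((k⁻¹).1 z)))))) = S.T (k.1 (P ((k⁻¹).1 x))) (k.1 (P ((k⁻¹).1 y)))
      (k.1 (P ((k⁻¹).1 z)))
    rw [← hk.1, hkk', h.trip]

theorem IsPr.sub {P : E →L[ℝ] E} (h : S.IsPr P) : S.Sub (LinearMap.range (P : E →ₗ[ℝ] E)) := by
  rintro _ ⟨x, rfl⟩ _ ⟨y, rfl⟩ _ ⟨z, rfl⟩
  exact ⟨S.T (P x) (P y) (P z), h.trip x y z⟩

theorem IsPr.self {P : E →L[ℝ] E} (h : S.IsPr P) {x : E}
    (hx : x ∈ LinearMap.range (P : E →ₗ[ℝ] E)) : P x = x := by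
  obtain ⟨y, rfl⟩ := hx
  exact h.idem y

theorem IsPr.perp {P : E →L[ℝ] E} (h : S.IsPr P) (x : E) :
    x - P x ∈ S.perp (LinearMap.range (P : E →ₗ[ℝ] E)) := by
  rintro _ ⟨y, rfl⟩
  show S.ip (x - P x) (P y) = 0
  rw [map_sub, LinearMap.sub_apply, h.symm x (P y), h.idem, sub_self]

theorem IsPr.ext {P P' : E →L[ℝ] E} (h : S.IsPr P) (h' : S.IsPr P')
    (hr : LinearMap.range (P : E →ₗ[ℝ] E) = LinearMap.range (P' : E →ₗ[ℝ] E)) : P = P' := by
  ext x
  have h1 : P' (P x) = P x := h'.self (by rw [← hr]; exact ⟨x, rfl⟩)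
  have h2 : P' (x - P x) = 0 := by
    apply S.ip_zero
    rw [h'.symm, h'.idem]
    exact h.perp x _ (by rw [hr]; exact ⟨x - P x, rfl⟩)
  rw [map_sub, sub_eq_zero] at h2
  rw [h2, h1]

/-- the rank of a projection is its trace -/
theorem IsPr.rank {P : E →L[ℝ] E} (h : S.IsPr P) :
    (finrank ℝ (LinearMap.range (P : E →ₗ[ℝ] E)) : ℝ) = LinearMap.trace ℝ E (P : E →ₗ[ℝ] E) := by
  have hp : LinearMap.IsProj (LinearMap.range (P : E →ₗ[ℝ] E)) (P : E →ₗ[ℝ] E) :=
    ⟨fun x => ⟨x, rfl⟩, fun x hx => h.self hx⟩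
  exact hp.trace.symm

theorem exists_isPr {V : Submodule ℝ E} (hV : S.Sub V) :
    ∃ P : E →L[ℝ] E, S.IsPr P ∧ LinearMap.range (P : E →ₗ[ℝ] E) = V := by
  obtain ⟨P, h1, h2, h3, h4⟩ := S.exists_proj V
  refine ⟨LinearMap.toContinuousLinearMap P, ⟨fun x => h2 _ (h1 x), h3, fun x y z => ?_⟩, ?_⟩
  · exact h2 _ (hV _ (h1 x) _ (h1 y) _ (h1 z))
  · ext x
    constructor
    · rintro ⟨y, rfl⟩
      exact h1 y
    · intro hx
      exact ⟨x, h2 x hx⟩

theorem range_conj (P : E →L[ℝ] E) (k : GLE E) :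
    LinearMap.range ((k.1 * P * (k⁻¹).1 : E →L[ℝ] E) : E →ₗ[ℝ] E) =
      im k (LinearMap.range (P : E →ₗ[ℝ] E)) := by
  have hkk' := kinv' k
  ext x
  rw [mem_im]
  constructor
  · rintro ⟨y, rfl⟩
    exact ⟨P ((k⁻¹).1 y), ⟨_, rfl⟩, rfl⟩
  · rintro ⟨_, ⟨y, rfl⟩, rfl⟩
    refine ⟨k.1 y, ?_⟩
    show k.1 (P ((k⁻¹).1 (k.1 y))) = k.1 (P y)
    rw [hkk']

omit [NormedAddCommGroup E] [NormedSpace ℝ E] [FiniteDimensional ℝ E] in
private theorem bil_deriv {V : Type} [NormedAddCommGroup V] [NormedSpace ℝ V]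
    [FiniteDimensional ℝ V] (B : V →ₗ[ℝ] V →ₗ[ℝ] ℝ) {X : ℝ → V} {X' : V}
    (h4 : HasDerivAt X X' 0) :
    HasDerivAt (fun t => B (X t) (X t)) (B X' (X 0) + B (X 0) X') 0 := by
  let Bc : V →L[ℝ] (V →L[ℝ] ℝ) := LinearMap.toContinuousLinearMap
    ((LinearMap.toContinuousLinearMap (𝕜 := ℝ) (E := V) (F' := ℝ)).toLinearMap.comp B)
  have h5 : HasDerivAt (fun t => Bc (X t)) (Bc X') 0 := Bc.hasFDerivAt.comp_hasDerivAt 0 h4
  exact h5.clm_apply h4

private theorem hs_sub_left (A B C : E →L[ℝ] E) : S.hs (A - B) C = S.hs A C - S.hs B C := by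
  unfold hs
  rw [← Finset.sum_sub_distrib]
  refine Finset.sum_congr rfl fun i _ => ?_
  show S.ip (A (S.ob i) - B (S.ob i)) (C (S.ob i)) = _
  rw [map_sub, LinearMap.sub_apply]

private theorem hs_sub_right (A B C : E →L[ℝ] E) : S.hs A (B - C) = S.hs A B - S.hs A C := by
  unfold hs
  rw [← Finset.sum_sub_distrib]
  refine Finset.sum_congr rfl fun i _ => ?_
  show S.ip (A (S.ob i)) (B (S.ob i) - C (S.ob i)) = _
  rw [map_sub]

private theorem hs_symm (A B : E →L[ℝ] E) : S.hs A B = S.hs B A := by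
  unfold hs
  exact Finset.sum_congr rfl fun i _ => S.symm _ _

/-- the derivative of the distance along a one parameter group -/
private theorem hs_deriv (D P' P₀ : E →L[ℝ] E) :
    HasDerivAt (fun t : ℝ => S.hs ((ex (t • D)).1 * P' * ((ex (t • D))⁻¹).1 - P₀)
      ((ex (t • D)).1 * P' * ((ex (t • D))⁻¹).1 - P₀))
      (2 * S.hs (D * P' - P' * D) (P' - P₀)) 0 := by
  have h1 : HasDerivAt (fun t : ℝ => (ex (t • D)).1) D 0 := ex_deriv D
  have h2 : HasDerivAt (fun t : ℝ => ((ex (t • D))⁻¹).1) (-D) 0 := by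
    have h3 := ex_deriv (-D)
    refine h3.congr_of_eventuallyEq (Filter.Eventually.of_forall fun t => ?_)
    show ((ex (t • D))⁻¹).1 = (ex (t • -D)).1
    rw [smul_neg, ex_neg]
  have h4 : HasDerivAt (fun t : ℝ => (ex (t • D)).1 * P' * ((ex (t • D))⁻¹).1 - P₀)
      (D * P' - P' * D) 0 := by
    have h5 := ((h1.mul_const P').mul h2).sub_const P₀
    have e0 : (ex ((0 : ℝ) • D) : GLE E) = 1 := by rw [zero_smul, ex_zero]
    rw [e0, inv_one, Units.val_one, one_mul, mul_one] at h5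
    have e1 : D * P' + P' * -D = D * P' - P' * D := by noncomm_ring
    rw [e1] at h5
    exact h5
  let B : (E →L[ℝ] E) →ₗ[ℝ] (E →L[ℝ] E) →ₗ[ℝ] ℝ := LinearMap.mk₂ ℝ S.hs
    (fun a b c => by
      unfold hs
      rw [← Finset.sum_add_distrib]
      refine Finset.sum_congr rfl fun i _ => ?_
      show S.ip (a (S.ob i) + b (S.ob i)) (c (S.ob i)) = _
      rw [map_add, LinearMap.add_apply])
    (fun r a c => by
      unfold hs
      rw [smul_eq_mul, Finset.mul_sum]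
      refine Finset.sum_congr rfl fun i _ => ?_
      show S.ip (r • a (S.ob i)) (c (S.ob i)) = _
      rw [map_smul, LinearMap.smul_apply, smul_eq_mul])
    (fun a b c => by
      unfold hs
      rw [← Finset.sum_add_distrib]
      refine Finset.sum_congr rfl fun i _ => ?_
      show S.ip (a (S.ob i)) (b (S.ob i) + c (S.ob i)) = _
      rw [map_add])
    (fun r a c => by
      unfold hs
      rw [smul_eq_mul, Finset.mul_sum]
      refine Finset.sum_congr rfl fun i _ => ?_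
      show S.ip (a (S.ob i)) (r • c (S.ob i)) = _
      rw [map_smul, smul_eq_mul])
  have h6 := bil_deriv B h4
  have e0 : (ex ((0 : ℝ) • D) : GLE E) = 1 := by rw [zero_smul, ex_zero]
  have hB : ∀ X Y, B X Y = S.hs X Y := fun X Y => rfl
  rw [e0, inv_one, Units.val_one, one_mul, mul_one, hB, hB, hs_symm (P' - P₀),
    ← two_mul] at h6
  exact h6

/-- the commutator with a skew operator is orthogonal to a projection -/
private theorem hs_com_self {P : E →L[ℝ] E} (h : S.IsPr P) {D : E →L[ℝ] E}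
    (hD : ∀ x y, S.ip (D x) y = -S.ip x (D y)) : S.hs (D * P - P * D) P = 0 := by
  have h1 : ∀ x, S.ip (D x) x = 0 := fun x => by
    have h2 := hD x x
    rw [S.symm x] at h2
    linarith
  rw [hs_sub_left]
  have e1 : S.hs (D * P) P = 0 := by
    unfold hs
    exact Finset.sum_eq_zero fun i _ => h1 _
  have e2 : S.hs (P * D) P = 0 := by
    have h3 : S.hs (P * D) P = ∑ i, (S.ip.compl₁₂ (LinearMap.id : E →ₗ[ℝ] E) (P : E →ₗ[ℝ] E))
        ((D : E →ₗ[ℝ] E) (S.ob i)) (S.ob i) := by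
      unfold hs
      refine Finset.sum_congr rfl fun i _ => ?_
      show S.ip (P (D (S.ob i))) (P (S.ob i)) = S.ip (D (S.ob i)) (P (S.ob i))
      rw [h.symm, h.idem]
    have h4 := S.ob_ob.swap (A := (D : E →ₗ[ℝ] E)) (A' := ((-D : E →L[ℝ] E) : E →ₗ[ℝ] E))
      (S.ip.compl₁₂ (LinearMap.id : E →ₗ[ℝ] E) (P : E →ₗ[ℝ] E))
      (fun _ _ => trivial) (fun _ _ => trivial) (fun x _ y _ => by
        show S.ip (D x) y = S.ip x (-D y)
        rw [hD, map_neg])
    rw [h3, h4]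
    have h5 : ∑ i, (S.ip.compl₁₂ (LinearMap.id : E →ₗ[ℝ] E) (P : E →ₗ[ℝ] E)) (S.ob i)
        (((-D : E →L[ℝ] E) : E →ₗ[ℝ] E) (S.ob i)) = -S.hs (P * D) P := by
      rw [h3, ← Finset.sum_neg_distrib]
      refine Finset.sum_congr rfl fun i _ => ?_
      show S.ip (S.ob i) (P (-D (S.ob i))) = -S.ip (D (S.ob i)) (P (S.ob i))
      rw [map_neg, map_neg, ← h.symm, S.symm]
    have h6 := h3.symm.trans (h3.trans rfl)
    rw [h5]
    have h7 : S.hs (P * D) P = -S.hs (P * D) P := by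
      rw [← h5, ← h4, ← h3]
    linarith
  rw [e1, e2, sub_zero]

/-- minimal distance within the orbit -/
theorem minimal {P P₀ : E →L[ℝ] E} (h : S.IsPr P) (h0 : S.IsPr P₀) :
    ∃ k ∈ S.Inn, ∀ P' : E →L[ℝ] E, P' = k.1 * P * (k⁻¹).1 →
      S.hs (P' - P₀) (P' - P₀) ≤ S.hs (P - P₀) (P - P₀) ∧
      ∀ u w, S.hs (S.D u w * (P' - P₀) - (P' - P₀) * S.D u w) P₀ = 0 := by
  have hcon : Continuous fun k : GLE E => S.hs (k.1 * P * (k⁻¹).1 - P₀)
      (k.1 * P * (k⁻¹).1 - P₀) := by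
    have h1 : Continuous fun k : GLE E => k.1 * P * (k⁻¹).1 - P₀ :=
      (((Units.continuous_val.mul continuous_const).mul
        (Units.continuous_val.comp continuous_inv))).sub continuous_const
    exact (continuous_hs S).comp (h1.prodMk h1)
  obtain ⟨k, hk, hmin⟩ := S.inn_compact.exists_isMinOn ⟨1, S.Inn.one_mem⟩ hcon.continuousOn
  have hmin' : ∀ k' ∈ S.Inn, S.hs (k.1 * P * (k⁻¹).1 - P₀) (k.1 * P * (k⁻¹).1 - P₀) ≤
      S.hs (k'.1 * P * (k'⁻¹).1 - P₀) (k'.1 * P * (k'⁻¹).1 - P₀) := fun k' hk' =>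
    hmin (SetLike.mem_coe.2 hk')
  refine ⟨k, hk, fun P' hP' => ⟨?_, fun u w => ?_⟩⟩
  · have h1 := hmin' 1 S.Inn.one_mem
    rw [← hP', inv_one, Units.val_one, one_mul, mul_one] at h1
    exact h1
  · have hPr' : S.IsPr P' := by
      rw [hP']
      exact h.conj (S.inn_aut k hk)
    have hD : ∀ x y, S.ip (S.D u w x) y = -S.ip x (S.D u w y) := fun x y => S.inv u w x y
    have hder := hs_deriv (S := S) (S.D u w) P' P₀
    have hloc : IsLocalMin (fun t : ℝ => S.hs ((ex (t • S.D u w)).1 * P' *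
        ((ex (t • S.D u w))⁻¹).1 - P₀) ((ex (t • S.D u w)).1 * P' *
        ((ex (t • S.D u w))⁻¹).1 - P₀)) 0 := by
      refine Filter.Eventually.of_forall fun t => ?_
      show S.hs ((ex ((0 : ℝ) • S.D u w)).1 * P' * ((ex ((0 : ℝ) • S.D u w))⁻¹).1 - P₀)
        ((ex ((0 : ℝ) • S.D u w)).1 * P' * ((ex ((0 : ℝ) • S.D u w))⁻¹).1 - P₀) ≤
        S.hs ((ex (t • S.D u w)).1 * P' * ((ex (t • S.D u w))⁻¹).1 - P₀)
        ((ex (t • S.D u w)).1 * P' * ((ex (t • S.D u w))⁻¹).1 - P₀)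
      rw [zero_smul, ex_zero, inv_one, Units.val_one, one_mul, mul_one]
      have h1 := hmin' (ex (t • S.D u w) * k) (S.Inn.mul_mem (S.ex_smul_mem t u w) hk)
      rw [← hP'] at h1
      have h2 : ((ex (t • S.D u w) * k).1 * P * ((ex (t • S.D u w) * k)⁻¹).1 : E →L[ℝ] E) =
          (ex (t • S.D u w)).1 * P' * ((ex (t • S.D u w))⁻¹).1 := by
        rw [hP', mul_inv_rev, Units.val_mul, Units.val_mul]
        noncomm_ring
      rw [h2] at h1
      exact h1
    have h0r := h0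
    have h5 := hloc.hasDerivAt_eq_zero hder
    have h3 : S.hs (S.D u w * P' - P' * S.D u w) (P' - P₀) = 0 := by linarith
    rw [hs_sub_right, hs_com_self hPr' hD] at h3
    have h4 : S.D u w * (P' - P₀) - (P' - P₀) * S.D u w =
        (S.D u w * P' - P' * S.D u w) - (S.D u w * P₀ - P₀ * S.D u w) := by noncomm_ring
    rw [h4, hs_sub_left, hs_com_self h0r hD]
    linarith

end LTS

end Pool.Agent.MP417P
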